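import Pool.Agent.Helper104.PCV.Coprime

set_option autoImplicit false

open Polynomial Pool.Agent.W432.WB Pool.Agent.W432.HK Pool.Agent.Y227.RT

/-!
# The `p`-curvature conjecture for second order operators with coprime local projective orders

The operators have order two, any number of singular points and arbitrary accessory parameters. The
denominators of the exponent differences (the orders of the local projective monodromies, when these
are semisimple) are equal or coprime; for equal denominators the differences agree up to sign modulo
the integers (as for conjugate singular points). Irreducibility is not assumed, and resonances are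
allowed.

Proof. The units modulo `N` act independently on the differences with different denominators, by the
Chinese remainder theorem. So for any choice of signs there is a unit `a` such that `a * θ x` is
`± 1 / d x` modulo the integers for all `x`, `d x` the denominator of `θ x`, and another one for which
the points with the denominator `d x₀` have `± 2 / d x₀` instead (for odd `d x₀`; for even `d x₀` one
changes `a` by the product of all the denominators). For one of the two choices the vector of these
numbers is close (in the `l¹` norm, with distance less than one) to an integral vector of the odd
class. Line subbundles with prescribed zeros along the flags then show that the conjugate exponents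
`a * lam`, `a * phi` are not the weights of a semistable parabolic bundle of degree zero, and our
result `StableExponents` applies.
-/

namespace Pool.Agent.Results.MP_aa40d3_nt.CoprimeDenominators

/-- Let `L = ∑ b k ∂ ^ k` be an operator of order two with integral polynomial coefficients which is
Fuchsian with finite singular points among the `m ≥ 1` distinct algebraic numbers `α j`, with rational
exponents `lam j l` at `α j` and `-phi l` at infinity, of common denominator `N`. Let `theta lam phi x`
be the differences of the exponents at the `m + 1` points and let `d x` be their denominators. Assume:

* for any two of the points the denominators are coprime, or the differences agree modulo the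
  integers up to sign;
* there is a point `x₀` with `d x₀ ≠ 1` such that the number `k` of the points with the denominator
  `d x₀` is odd, and the sum of `1 / d x` over all points with `d x ≠ 1` is less than `1` if `d x₀` is
  even and less than `1 - k / d x₀` if `d x₀` is odd.

(If the denominators are pairwise coprime, then `k = 1` for all points `x₀` with `d x₀ ≠ 1`.)

Then there is an integer `a` prime to `N` such that for all large primes `p` with `a p = -1` modulo
`N` the reduction of `L` modulo `p` does not have a full basis of rational solutions; in particular
the reductions do not have a full basis of rational solutions for almost all primes. -/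
theorem result {m : ℕ} (hm : 0 < m) (b : Fin 3 → ℤ[X]) (α : Fin m → AlgebraicClosure ℚ)
    (lam : Fin m → Fin 2 → ℚ) (phi : Fin 2 → ℚ) (N : ℕ) (hF : FuchsianWith b α lam phi)
    (hN : CommonDen lam phi N) (d : Option (Fin m) → ℕ) (hd : ∀ x, d x = (theta lam phi x).den)
    (h : ∀ x y, (d x).Coprime (d y) ∨ (∃ z : ℤ, theta lam phi x - theta lam phi y = z) ∨
      (∃ z : ℤ, theta lam phi x + theta lam phi y = z))
    (x₀ : Option (Fin m)) (h0 : d x₀ ≠ 1) (k : ℕ)
    (hk : (Finset.univ.filter fun x => d x = d x₀).card = k) (hodd : Odd k)
    (hlt : (∑ x, if d x = 1 then (0 : ℚ) else 1 / d x) <
      1 - if Even (d x₀) then 0 else (k : ℚ) / d x₀) :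
    (∃ a : ℤ, IsCoprime a (N : ℤ) ∧ ∃ P₀ : ℕ, ∀ p : ℕ, P₀ < p → (N : ℤ) ∣ a * p + 1 →
      ∀ _hp : Fact p.Prime, ¬ FullMod b p) ∧
    ¬ ∃ P : ℕ, ∀ p : ℕ, P < p → ∀ _hp : Fact p.Prime, FullMod b p := by
  obtain rfl : d = fun x => (theta lam phi x).den := funext hd
  subst hk
  exact Pool.Agent.Helper104.PCV.op_blocks hm b α lam phi N hF hN h x₀ h0 hodd (by
    beta_reduce at hlt
    linarith)

end Pool.Agent.Results.MP_aa40d3_nt.CoprimeDenominators
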